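import Pool.Agent.Q17.ASD.Comp
import Pool.Agent.Q17.ASD.Data

/-! The kernel computations. -/

namespace Pool.Agent.Q17.ASD

set_option maxRecDepth 100000

theorem k_e4 : bld (cf 240 3) 12 0 = e4 := by decide +kernel
theorem k_e6 : bld (cf (M - 504) 5) 12 0 = e6 := by decide +kernel
theorem k_a2 : red 12 ((e4 * e4) % B ^ 3126) = a2 := by decide +kernel
theorem k_a3 : red 12 ((a2 * e4) % B ^ 3126) = a3 := by decide +kernel
theorem k_c2 : red 12 ((e6 * e6) % B ^ 3126) = c2 := by decide +kernel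
theorem k_d0 : red 12 (1 * a3 + (M - 1) * c2) = d0 := by decide +kernel
theorem k_n0 : red 12 ((e6 * d0) % B ^ 3126) = n0 := by decide +kernel
theorem k_n1 : red 12 (37 * n0 + 0 * n0) = n1 := by decide +kernel
theorem k_g0 : red 12 (64 * c2 + (27 * (M - 1)) * a3) = g0 := by decide +kernel
theorem k_h0 : red 12 (1728 * g0 + 0 * g0) = h0 := by decide +kernel
theorem k_f0 : chk 12 f0 = true := by decide +kernel
theorem k_fh : red 12 ((f0 * h0) % B ^ 3126) = n1 := by decide +kernel

theorem k_f : f0 / B ^ 1 % B = 1 ∧ f0 / B ^ 5 % B = 12517976866 ∧ f0 / B ^ 25 % B = 3196500351 ∧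
    f0 / B ^ 125 % B = 10847334586 ∧ f0 / B ^ 625 % B = 5868814546 ∧ f0 / B ^ 3125 % B = 12455545731 := by
  decide +kernel

end Pool.Agent.Q17.ASD
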