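import Mathlib.Data.Nat.Bitwise

/-! Kernel computations with truncated power series, coded in base `2 ^ 96`. -/

namespace Pool.Agent.Q17.ASD

/-- The modulus `5 ^ 15`. -/
abbrev M : ℕ := 30517578125

/-- The base. -/
abbrev B : ℕ := 79228162514264337593543950336

/-- Digitwise reduction modulo `M` of a number with `2 ^ k` digits in base `B`. -/
def red (k : ℕ) : ℕ → ℕ :=
  Nat.rec (fun x => x % M) (fun j r x => r (x % B ^ (2 ^ j)) + B ^ (2 ^ j) * r (x / B ^ (2 ^ j))) k

/-- All of the `2 ^ k` digits are smaller than `M`. -/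
def chk (k : ℕ) : ℕ → Bool :=
  Nat.rec (fun x => Nat.blt x M) (fun j r x => r (x % B ^ (2 ^ j)) && r (x / B ^ (2 ^ j))) k

/-- sum over the divisors `d ≤ s` of `n` with `d ^ 2 ≤ n` of `d ^ e` and `(n / d) ^ e`. -/
def sg (e n : ℕ) (s : ℕ) : ℕ :=
  Nat.rec 0 (fun j r => if n % (j + 1) = 0 then
    (if (j + 1) * (j + 1) = n then r + (j + 1) ^ e else
      (if (j + 1) * (j + 1) < n then r + (j + 1) ^ e + (n / (j + 1)) ^ e else r)) else r) s

/-- coefficients -/
def cf (c e : ℕ) (n : ℕ) : ℕ :=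
  if n = 0 then 1 else if 3125 < n then 0 else (c * sg e n 56) % M

/-- Code of the series with coefficients `a n`, for `2 ^ k` coefficients starting at `off`. -/
def bld (a : ℕ → ℕ) (k : ℕ) : ℕ → ℕ :=
  Nat.rec (fun off => a off) (fun j r off => r off + B ^ (2 ^ j) * r (off + 2 ^ j)) k

end Pool.Agent.Q17.ASD
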