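import Mathlib.RingTheory.PowerSeries.Basic
import Mathlib.Algebra.Polynomial.Eval.Degree
import Mathlib.Algebra.Polynomial.Div
import Mathlib.NumberTheory.ArithmeticFunction.Misc
import Mathlib.Data.ZMod.Basic
import Mathlib.Tactic
import Pool.Agent.Q17.ASD.Comp

/-! Correctness of the kernel computations with truncated power series. -/

namespace Pool.Agent.Q17.ASD

open Polynomial

/-- The `i`-th digit in base `B`. -/
def dig (x i : ℕ) : ℕ := x / B ^ i % B

theorem B_pos : 0 < B := by norm_num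

theorem eval_divX (T : ℕ[X]) : T.eval B = T.coeff 0 + B * T.divX.eval B := by
  conv_lhs => rw [← T.divX_mul_X_add]
  simp [mul_comm, add_comm]

/-- digits of the value at `B` of a polynomial with small coefficients -/
theorem dig_eval (i : ℕ) : ∀ T : ℕ[X], (∀ j, T.coeff j < B) → dig (T.eval B) i = T.coeff i := by
  induction i with
  | zero =>
    intro T hT
    unfold dig
    rw [eval_divX T, pow_zero, Nat.div_one, Nat.add_mul_mod_self_left]
    exact Nat.mod_eq_of_lt (hT 0)
  | succ i ih =>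
    intro T hT
    have h1 : T.eval B / B = T.divX.eval B := by
      rw [eval_divX T, Nat.add_mul_div_left _ _ B_pos, Nat.div_eq_of_lt (hT 0), zero_add]
    have h2 := ih T.divX (fun j => by rw [coeff_divX]; exact hT _)
    unfold dig at h2 ⊢
    rw [pow_succ', ← Nat.div_div_eq_div_mul, h1, h2, coeff_divX]

theorem sum_dig (x n : ℕ) : ∑ i ∈ Finset.range n, dig x i * B ^ i = x % B ^ n := by
  induction n with
  | zero => simp [Nat.mod_one]
  | succ n ih =>
    rw [Finset.sum_range_succ, ih, Nat.mod_pow_succ, dig, mul_comm]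

/-- The polynomial of the digits. -/
noncomputable def dp (n x : ℕ) : ℕ[X] := ∑ i ∈ Finset.range n, monomial i (dig x i)

theorem dp_coeff (n x i : ℕ) : (dp n x).coeff i = if i < n then dig x i else 0 := by
  simp only [dp, finsetSum_coeff, coeff_monomial]
  simp

theorem dp_eval (n x : ℕ) (hx : x < B ^ n) : (dp n x).eval B = x := by
  rw [dp, eval_finsetSum]
  simp only [eval_monomial]
  rw [sum_dig, Nat.mod_eq_of_lt hx]

theorem dig_eq_zero {n x i : ℕ} (hx : x < B ^ n) (hi : n ≤ i) : dig x i = 0 := by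
  unfold dig
  rw [Nat.div_eq_of_lt (hx.trans_le (Nat.pow_le_pow_right B_pos hi)), Nat.zero_mod]

theorem eval_lt (n : ℕ) : ∀ T : ℕ[X], (∀ j, T.coeff j < B) → (∀ j, n ≤ j → T.coeff j = 0) →
    T.eval B < B ^ n := by
  induction n with
  | zero =>
    intro T _ h2
    have : T = 0 := by
      ext j
      rw [h2 j (Nat.zero_le _), coeff_zero]
    subst this
    simp
  | succ n ih =>
    intro T h1 h2
    have h3 := ih T.divX (fun j => by rw [coeff_divX]; exact h1 _)
      (fun j hj => by rw [coeff_divX]; exact h2 _ (by omega))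
    have h4 := h1 0
    rw [eval_divX T, pow_succ']
    have h5 : T.divX.eval B + 1 ≤ B ^ n := h3
    calc T.coeff 0 + B * T.divX.eval B < B + B * T.divX.eval B := by omega
      _ = B * (T.divX.eval B + 1) := by ring
      _ ≤ B * B ^ n := Nat.mul_le_mul_left _ h5

/-- small: at most `2 ^ K` digits, all of them smaller than `M` -/
def Sm (K x : ℕ) : Prop := x < B ^ (2 ^ K) ∧ ∀ i, dig x i < M

theorem dp_coeff' {K x : ℕ} (hx : Sm K x) (i : ℕ) : (dp (2 ^ K) x).coeff i = dig x i := by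
  rw [dp_coeff]
  split_ifs with h
  · rfl
  · exact (dig_eq_zero hx.1 (not_lt.1 h)).symm

/-- The power series with coefficients modulo `M` of a code. -/
noncomputable def ser (x : ℕ) : PowerSeries (ZMod M) := PowerSeries.mk fun i => ((dig x i : ℕ) : ZMod M)

theorem coeff_ser (x i : ℕ) : PowerSeries.coeff i (ser x) = ((dig x i : ℕ) : ZMod M) := by
  simp [ser]

/-- Equality of the coefficients with index `< t`. -/
def EqT (t : ℕ) {R : Type*} [CommRing R] (f g : PowerSeries R) : Prop :=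
  ∀ i < t, PowerSeries.coeff i f = PowerSeries.coeff i g

section EqT
variable {t : ℕ} {R : Type*} [CommRing R] {f g h f' g' : PowerSeries R}
theorem EqT.refl (f : PowerSeries R) : EqT t f f := fun _ _ => rfl
theorem EqT.symm (h : EqT t f g) : EqT t g f := fun i hi => (h i hi).symm
theorem EqT.trans (h1 : EqT t f g) (h2 : EqT t g h) : EqT t f h := fun i hi => (h1 i hi).trans (h2 i hi)
theorem EqT.mul (h1 : EqT t f g) (h2 : EqT t f' g') : EqT t (f * f') (g * g') := by
  intro i hi
  rw [PowerSeries.coeff_mul, PowerSeries.coeff_mul]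
  refine Finset.sum_congr rfl fun p hp => ?_
  have := Finset.mem_antidiagonal.1 hp
  rw [h1 p.1 (by omega), h2 p.2 (by omega)]
theorem EqT.add (h1 : EqT t f g) (h2 : EqT t f' g') : EqT t (f + f') (g + g') := by
  intro i hi
  rw [map_add, map_add, h1 i hi, h2 i hi]
theorem EqT.sub (h1 : EqT t f g) (h2 : EqT t f' g') : EqT t (f - f') (g - g') := by
  intro i hi
  rw [map_sub, map_sub, h1 i hi, h2 i hi]
theorem EqT.of_eq (h : f = g) : EqT t f g := by subst h; exact EqT.refl _
end EqT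

theorem dig_add_mul {u v m : ℕ} (hu : u < B ^ m) (i : ℕ) :
    dig (u + B ^ m * v) i = if i < m then dig u i else dig v (i - m) := by
  unfold dig
  split_ifs with h
  · obtain ⟨e, rfl⟩ := Nat.exists_eq_add_of_lt h
    have : B ^ (i + e + 1) * v = B ^ i * (B * (B ^ e * v)) := by ring
    rw [this, Nat.add_mul_div_left _ _ (Nat.pow_pos B_pos), Nat.add_mul_mod_self_left]
  · obtain ⟨e, rfl⟩ := Nat.exists_eq_add_of_le (not_lt.1 h)
    rw [pow_add, ← Nat.div_div_eq_div_mul, Nat.add_mul_div_left _ _ (Nat.pow_pos B_pos),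
      Nat.div_eq_of_lt hu, zero_add, Nat.add_sub_cancel_left]

theorem dig_mod {x n i : ℕ} (hi : i < n) : dig (x % B ^ n) i = dig x i := by
  have h := Nat.mod_add_div x (B ^ n)
  conv_rhs => rw [← h]
  rw [dig_add_mul (Nat.mod_lt _ (Nat.pow_pos B_pos)), if_pos hi]

theorem red_zero (x : ℕ) : red 0 x = x % M := rfl
theorem red_succ (k x : ℕ) : red (k + 1) x = red k (x % B ^ (2 ^ k)) + B ^ (2 ^ k) * red k (x / B ^ (2 ^ k)) := rfl

theorem dig_div (x m i : ℕ) : dig (x / B ^ m) i = dig x (m + i) := by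
  unfold dig
  rw [Nat.div_div_eq_div_mul, pow_add]

theorem red_lt (k : ℕ) : ∀ x, red k x < B ^ (2 ^ k) := by
  induction k with
  | zero =>
    intro x
    rw [red_zero]
    calc x % M < M := Nat.mod_lt _ (by norm_num)
      _ < B ^ (2 ^ 0) := by norm_num
  | succ k ih =>
    intro x
    rw [red_succ, pow_succ, mul_two, pow_add]
    have h1 := ih (x % B ^ (2 ^ k))
    have h2 := ih (x / B ^ (2 ^ k))
    have h3 : B ^ (2 ^ k) * red k (x / B ^ (2 ^ k)) ≤ B ^ (2 ^ k) * (B ^ (2 ^ k) - 1) :=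
      Nat.mul_le_mul_left _ (by omega)
    have h4 : B ^ (2 ^ k) * (B ^ (2 ^ k) - 1) + B ^ (2 ^ k) = B ^ (2 ^ k) * B ^ (2 ^ k) := by
      have : 0 < B ^ (2 ^ k) := Nat.pow_pos B_pos
      calc B ^ (2 ^ k) * (B ^ (2 ^ k) - 1) + B ^ (2 ^ k)
          = B ^ (2 ^ k) * (B ^ (2 ^ k) - 1 + 1) := by ring
        _ = _ := by rw [Nat.sub_add_cancel this]
    omega

theorem dig_red (k : ℕ) : ∀ x, x < B ^ (2 ^ k) → ∀ i, i < 2 ^ k → dig (red k x) i = dig x i % M := by
  induction k with
  | zero =>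
    intro x hx i hi
    have : i = 0 := by simpa using hi
    subst this
    rw [red_zero]
    unfold dig
    rw [pow_zero, Nat.div_one, Nat.div_one]
    have h0 : x < B := by simpa using hx
    rw [Nat.mod_eq_of_lt h0]
    exact Nat.mod_eq_of_lt ((Nat.mod_lt _ (by norm_num)).trans (by norm_num))
  | succ k ih =>
    intro x hx i hi
    have hx' : x < B ^ (2 ^ k) * B ^ (2 ^ k) := by
      rwa [pow_succ, mul_two, pow_add] at hx
    have hp : 0 < B ^ (2 ^ k) := Nat.pow_pos B_pos
    rw [red_succ, dig_add_mul (red_lt k _)]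
    split_ifs with h
    · rw [ih _ (Nat.mod_lt _ hp) _ h, dig_mod h]
    · have h5 : i - 2 ^ k < 2 ^ k := by
        rw [pow_succ] at hi; omega
      rw [ih _ (Nat.div_lt_of_lt_mul hx') _ h5, dig_div]
      congr 2
      omega

theorem sm_red {K x : ℕ} (hx : x < B ^ (2 ^ K)) : Sm K (red K x) := by
  have h := red_lt K x
  refine ⟨h, fun i => ?_⟩
  by_cases hi : i < 2 ^ K
  · rw [dig_red K x hx i hi]
    exact Nat.mod_lt _ (by norm_num)
  · rw [dig_eq_zero h (not_lt.1 hi)]
    norm_num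

theorem ser_red {K x t : ℕ} (hx : x < B ^ (2 ^ K)) (ht : t ≤ 2 ^ K) : EqT t (ser (red K x)) (ser x) := by
  intro i hi
  rw [coeff_ser, coeff_ser, dig_red K x hx i (by omega)]
  exact ZMod.natCast_mod _ _

theorem ser_mod (t x : ℕ) : EqT t (ser (x % B ^ t)) (ser x) := by
  intro i hi
  rw [coeff_ser, coeff_ser, dig_mod hi]

theorem dig_mul {K x y : ℕ} (hK : 2 ^ K * (M * M) < B) (hx : Sm K x) (hy : Sm K y) (i : ℕ) :
    dig (x * y) i = ∑ p ∈ Finset.antidiagonal i, dig x p.1 * dig y p.2 := by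
  have h1 : ((dp (2 ^ K) x) * (dp (2 ^ K) y)).eval B = x * y := by
    rw [eval_mul, dp_eval _ _ hx.1, dp_eval _ _ hy.1]
  have h2 : ∀ i, ((dp (2 ^ K) x) * (dp (2 ^ K) y)).coeff i =
      ∑ p ∈ Finset.antidiagonal i, dig x p.1 * dig y p.2 := by
    intro i
    rw [coeff_mul]
    exact Finset.sum_congr rfl fun p _ => by rw [dp_coeff' hx, dp_coeff' hy]
  rw [← h1, dig_eval, h2]
  intro j
  rw [h2]
  calc ∑ p ∈ Finset.antidiagonal j, dig x p.1 * dig y p.2
      = ∑ p ∈ (Finset.antidiagonal j).filter (fun p => p.1 < 2 ^ K), dig x p.1 * dig y p.2 := by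
        rw [Finset.sum_filter]
        refine Finset.sum_congr rfl fun p _ => ?_
        split_ifs with h
        · rfl
        · rw [dig_eq_zero hx.1 (not_lt.1 h), zero_mul]
    _ ≤ ∑ p ∈ (Finset.antidiagonal j).filter (fun p => p.1 < 2 ^ K), M * M := by
        refine Finset.sum_le_sum fun p _ => ?_
        exact Nat.mul_le_mul (hx.2 _).le (hy.2 _).le
    _ = ((Finset.antidiagonal j).filter (fun p => p.1 < 2 ^ K)).card * (M * M) := by
        rw [Finset.sum_const, smul_eq_mul]
    _ ≤ 2 ^ K * (M * M) := by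
        refine Nat.mul_le_mul_right _ ?_
        rw [← Finset.card_range (2 ^ K)]
        refine Finset.card_le_card_of_injOn (fun p => p.1) ?_ ?_
        · intro p hp
          have := (Finset.mem_filter.1 hp).2
          simpa using this
        · intro p hp q hq h
          have h1 := Finset.mem_antidiagonal.1 (Finset.mem_filter.1 hp).1
          have h2 := Finset.mem_antidiagonal.1 (Finset.mem_filter.1 hq).1
          simp only at h
          ext
          · exact h
          · omega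
    _ < B := hK

theorem ser_mul {K x y : ℕ} (hK : 2 ^ K * (M * M) < B) (hx : Sm K x) (hy : Sm K y) :
    ser (x * y) = ser x * ser y := by
  ext i
  rw [coeff_ser, dig_mul hK hx hy, PowerSeries.coeff_mul, Nat.cast_sum]
  exact Finset.sum_congr rfl fun p _ => by rw [coeff_ser, coeff_ser, Nat.cast_mul]

theorem dig_lin {K x y c d : ℕ} (hx : Sm K x) (hy : Sm K y) (h : c * M + d * M < B) :
    (∀ i, dig (c * x + d * y) i = c * dig x i + d * dig y i) ∧ c * x + d * y < B ^ (2 ^ K) := by
  have h1 : (C c * (dp (2 ^ K) x) + C d * (dp (2 ^ K) y)).eval B = c * x + d * y := by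
    rw [eval_add, eval_mul, eval_mul, eval_C, eval_C, dp_eval _ _ hx.1, dp_eval _ _ hy.1]
  have h2 : ∀ i, (C c * (dp (2 ^ K) x) + C d * (dp (2 ^ K) y)).coeff i = c * dig x i + d * dig y i := by
    intro i
    rw [coeff_add, coeff_C_mul, coeff_C_mul, dp_coeff' hx, dp_coeff' hy]
  have h5 : ∀ j, (C c * (dp (2 ^ K) x) + C d * (dp (2 ^ K) y)).coeff j < B := by
    intro j
    rw [h2]
    have h3 := Nat.mul_le_mul_left c (hx.2 j).le
    have h4 := Nat.mul_le_mul_left d (hy.2 j).le
    omega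
  constructor
  · intro i
    rw [← h1, dig_eval _ _ h5, h2]
  · rw [← h1]
    refine eval_lt _ _ h5 fun j hj => ?_
    rw [h2, dig_eq_zero hx.1 hj, dig_eq_zero hy.1 hj]
    simp

theorem ser_lin {K x y c d : ℕ} (hx : Sm K x) (hy : Sm K y) (h : c * M + d * M < B) :
    ser (c * x + d * y) = PowerSeries.C (c : ZMod M) * ser x + PowerSeries.C (d : ZMod M) * ser y := by
  ext i
  rw [coeff_ser, (dig_lin hx hy h).1, map_add, PowerSeries.coeff_C_mul, PowerSeries.coeff_C_mul, coeff_ser,
    coeff_ser]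
  push_cast
  rfl

/-- One multiplication step. -/
theorem step_mul {K t x y z : ℕ} (hK : 2 ^ K * (M * M) < B) (ht : t ≤ 2 ^ K) (hx : Sm K x) (hy : Sm K y)
    (h : red K ((x * y) % B ^ t) = z) : Sm K z ∧ EqT t (ser z) (ser x * ser y) := by
  have h1 : (x * y) % B ^ t < B ^ (2 ^ K) :=
    (Nat.mod_lt _ (Nat.pow_pos B_pos)).trans_le (Nat.pow_le_pow_right B_pos ht)
  subst h
  refine ⟨sm_red h1, (ser_red h1 ht).trans ((ser_mod _ _).trans (EqT.of_eq (ser_mul hK hx hy)))⟩

/-- One linear step. -/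
theorem step_lin {K t x y z : ℕ} (c d : ℕ) (ht : t ≤ 2 ^ K) (hx : Sm K x) (hy : Sm K y)
    (hcd : c * M + d * M < B) (h : red K (c * x + d * y) = z) :
    Sm K z ∧ EqT t (ser z) (PowerSeries.C (c : ZMod M) * ser x + PowerSeries.C (d : ZMod M) * ser y) := by
  subst h
  have h1 := (dig_lin hx hy hcd).2
  exact ⟨sm_red h1, (ser_red h1 ht).trans (EqT.of_eq (ser_lin hx hy hcd))⟩

theorem bld_zero (a : ℕ → ℕ) (off : ℕ) : bld a 0 off = a off := rfl
theorem bld_succ (a : ℕ → ℕ) (k off : ℕ) :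
    bld a (k + 1) off = bld a k off + B ^ (2 ^ k) * bld a k (off + 2 ^ k) := rfl

theorem bld_lt {a : ℕ → ℕ} (ha : ∀ n, a n < M) (k : ℕ) : ∀ off, bld a k off < B ^ (2 ^ k) := by
  induction k with
  | zero =>
    intro off
    rw [bld_zero]
    calc a off < M := ha _
      _ < B ^ (2 ^ 0) := by norm_num
  | succ k ih =>
    intro off
    rw [bld_succ, pow_succ, mul_two, pow_add]
    have h1 := ih off
    have h2 := ih (off + 2 ^ k)
    have h3 : B ^ (2 ^ k) * bld a k (off + 2 ^ k) ≤ B ^ (2 ^ k) * (B ^ (2 ^ k) - 1) :=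
      Nat.mul_le_mul_left _ (by omega)
    have h4 : B ^ (2 ^ k) * (B ^ (2 ^ k) - 1) + B ^ (2 ^ k) = B ^ (2 ^ k) * B ^ (2 ^ k) := by
      have : 0 < B ^ (2 ^ k) := Nat.pow_pos B_pos
      calc B ^ (2 ^ k) * (B ^ (2 ^ k) - 1) + B ^ (2 ^ k)
          = B ^ (2 ^ k) * (B ^ (2 ^ k) - 1 + 1) := by ring
        _ = _ := by rw [Nat.sub_add_cancel this]
    omega

theorem dig_bld {a : ℕ → ℕ} (ha : ∀ n, a n < M) (k : ℕ) :
    ∀ off i, i < 2 ^ k → dig (bld a k off) i = a (off + i) := by
  induction k with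
  | zero =>
    intro off i hi
    have : i = 0 := by simpa using hi
    subst this
    rw [bld_zero]
    unfold dig
    rw [pow_zero, Nat.div_one, add_zero]
    exact Nat.mod_eq_of_lt ((ha off).trans (by norm_num))
  | succ k ih =>
    intro off i hi
    rw [bld_succ, dig_add_mul (bld_lt ha k _)]
    split_ifs with h
    · rw [ih _ _ h]
    · have h5 : i - 2 ^ k < 2 ^ k := by
        rw [pow_succ] at hi; omega
      rw [ih _ _ h5]
      congr 1
      omega

theorem sm_bld {a : ℕ → ℕ} (ha : ∀ n, a n < M) {K z : ℕ} (h : bld a K 0 = z) :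
    Sm K z ∧ ∀ i < 2 ^ K, dig z i = a i := by
  subst h
  have h1 := bld_lt ha K 0
  have h2 : ∀ i < 2 ^ K, dig (bld a K 0) i = a i := fun i hi => by
    rw [dig_bld ha K 0 i hi, zero_add]
  refine ⟨⟨h1, fun i => ?_⟩, h2⟩
  by_cases hi : i < 2 ^ K
  · rw [h2 i hi]; exact ha i
  · rw [dig_eq_zero h1 (not_lt.1 hi)]
    norm_num

theorem chk_zero (x : ℕ) : chk 0 x = Nat.blt x M := rfl
theorem chk_succ (k x : ℕ) : chk (k + 1) x = (chk k (x % B ^ (2 ^ k)) && chk k (x / B ^ (2 ^ k))) := rfl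

theorem dig_chk (k : ℕ) : ∀ x, chk k x = true → x < B ^ (2 ^ k) ∧ ∀ i < 2 ^ k, dig x i < M := by
  induction k with
  | zero =>
    intro x hx
    rw [chk_zero, Nat.blt_eq] at hx
    refine ⟨hx.trans (by norm_num), fun i hi => ?_⟩
    have : i = 0 := by simpa using hi
    subst this
    unfold dig
    rw [pow_zero, Nat.div_one]
    exact (Nat.mod_le _ _).trans_lt hx
  | succ k ih =>
    intro x hx
    rw [chk_succ, Bool.and_eq_true] at hx
    obtain ⟨h1, h2⟩ := hx
    obtain ⟨_, h1'⟩ := ih _ h1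
    obtain ⟨h3, h2'⟩ := ih _ h2
    have hp : 0 < B ^ (2 ^ k) := Nat.pow_pos B_pos
    refine ⟨?_, fun i hi => ?_⟩
    · rw [pow_succ, mul_two, pow_add]
      exact Nat.lt_mul_of_div_lt h3 hp
    · by_cases h : i < 2 ^ k
      · have := h1' i h
        rwa [dig_mod h] at this
      · have h5 : i - 2 ^ k < 2 ^ k := by
          rw [pow_succ] at hi; omega
        have := h2' _ h5
        rw [dig_div] at this
        rwa [show 2 ^ k + (i - 2 ^ k) = i by omega] at this

theorem sm_chk {K x : ℕ} (h : chk K x = true) : Sm K x := by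
  obtain ⟨h1, h2⟩ := dig_chk K x h
  refine ⟨h1, fun i => ?_⟩
  by_cases hi : i < 2 ^ K
  · exact h2 i hi
  · rw [dig_eq_zero h1 (not_lt.1 hi)]
    norm_num

end Pool.Agent.Q17.ASD
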