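import Mathlib.NumberTheory.ArithmeticFunction.Misc
import Mathlib.Tactic
import Pool.Agent.Q17.ASD.Comp

/-! The divisor sums. -/

namespace Pool.Agent.Q17.ASD

open ArithmeticFunction

theorem sg_zero (e n : ℕ) : sg e n 0 = 0 := rfl
theorem sg_succ (e n j : ℕ) : sg e n (j + 1) = if n % (j + 1) = 0 then
    (if (j + 1) * (j + 1) = n then sg e n j + (j + 1) ^ e else
      (if (j + 1) * (j + 1) < n then sg e n j + (j + 1) ^ e + (n / (j + 1)) ^ e else sg e n j)) else sg e n j :=
  rfl

/-- `sg` sums over the divisors `d` with `min d (n/d) ≤ s`. -/
theorem sg_eq (e n : ℕ) (hn : 0 < n) (s : ℕ) :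
    sg e n s = ∑ d ∈ n.divisors.filter (fun d => d ≤ s ∨ n / d ≤ s), d ^ e := by
  induction s with
  | zero =>
    rw [sg_zero]
    symm
    apply Finset.sum_eq_zero
    intro d hd
    rw [Finset.mem_filter, Nat.mem_divisors] at hd
    obtain ⟨⟨h1, _⟩, h2⟩ := hd
    have h3 : 0 < d := Nat.pos_of_dvd_of_pos h1 hn
    have h4 : 0 < n / d := Nat.div_pos (Nat.le_of_dvd hn h1) h3
    omega
  | succ j ih =>
    rw [sg_succ]
    have hdiv : ∀ d ∈ n.divisors, ∃ f, 0 < d ∧ 0 < f ∧ n = d * f ∧ n / d = f := by
      intro d hd
      obtain ⟨f, hf⟩ := (Nat.mem_divisors.1 hd).1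
      have h3 : 0 < d := Nat.pos_of_dvd_of_pos (Nat.mem_divisors.1 hd).1 hn
      refine ⟨f, h3, ?_, hf, ?_⟩
      · rcases Nat.eq_zero_or_pos f with h | h
        · subst h; omega
        · exact h
      · rw [hf, Nat.mul_div_cancel_left _ h3]
    by_cases h : n % (j + 1) = 0
    · rw [if_pos h]
      obtain ⟨c', hc'⟩ := Nat.dvd_of_mod_eq_zero h
      have hcpos : 0 < c' := by
        rcases Nat.eq_zero_or_pos c' with h | h
        · subst h; omega
        · exact h
      have hnc : n / (j + 1) = c' := by rw [hc', Nat.mul_div_cancel_left _ (Nat.succ_pos j)]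
      have hmem : (j + 1) ∈ n.divisors := Nat.mem_divisors.2 ⟨⟨c', hc'⟩, hn.ne'⟩
      have hmem' : c' ∈ n.divisors := Nat.mem_divisors.2 ⟨⟨j + 1, by rw [hc', mul_comm]⟩, hn.ne'⟩
      by_cases h1 : (j + 1) * (j + 1) = n
      · rw [if_pos h1, ih]
        have hcj : c' = j + 1 := Nat.eq_of_mul_eq_mul_left (Nat.succ_pos j) (hc'.symm.trans h1.symm)
        have : n.divisors.filter (fun d => d ≤ j + 1 ∨ n / d ≤ j + 1) =
            insert (j + 1) (n.divisors.filter (fun d => d ≤ j ∨ n / d ≤ j)) := by
          ext d
          rw [Finset.mem_insert, Finset.mem_filter, Finset.mem_filter]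
          constructor
          · rintro ⟨hd, h2⟩
            obtain ⟨f, hd0, hf0, hf, hdf⟩ := hdiv d hd
            rw [hdf] at h2 ⊢
            by_cases hh : d ≤ j ∨ f ≤ j
            · exact Or.inr ⟨hd, hh⟩
            · push Not at hh
              left
              rcases h2 with h2 | h2
              · omega
              · have : f = j + 1 := by omega
                subst this
                have : d * (j + 1) = (j + 1) * (j + 1) := by rw [← hf, h1]
                exact Nat.eq_of_mul_eq_mul_right (Nat.succ_pos j) this
          · rintro (rfl | ⟨hd, h2⟩)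
            · exact ⟨hmem, Or.inl le_rfl⟩
            · exact ⟨hd, h2.imp (fun h => by omega) (fun h => by omega)⟩
        rw [this, Finset.sum_insert, add_comm]
        intro hcon
        have := (Finset.mem_filter.1 hcon).2
        rw [hnc] at this
        omega
      · rw [if_neg h1]
        by_cases h3 : (j + 1) * (j + 1) < n
        · rw [if_pos h3, ih, hnc]
          have hlt : j + 1 < c' := by
            rw [hc'] at h3
            exact Nat.lt_of_mul_lt_mul_left h3
          have : n.divisors.filter (fun d => d ≤ j + 1 ∨ n / d ≤ j + 1) =
              insert c' (insert (j + 1) (n.divisors.filter (fun d => d ≤ j ∨ n / d ≤ j))) := by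
            ext d
            rw [Finset.mem_insert, Finset.mem_insert, Finset.mem_filter, Finset.mem_filter]
            constructor
            · rintro ⟨hd, h2⟩
              obtain ⟨f, hd0, hf0, hf, hdf⟩ := hdiv d hd
              rw [hdf] at h2 ⊢
              by_cases hh : d ≤ j ∨ f ≤ j
              · exact Or.inr (Or.inr ⟨hd, hh⟩)
              · push Not at hh
                rcases h2 with h2 | h2
                · right; left; omega
                · left
                  have : f = j + 1 := by omega
                  subst this
                  have : d * (j + 1) = c' * (j + 1) := by rw [← hf, hc', mul_comm]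
                  exact Nat.eq_of_mul_eq_mul_right (Nat.succ_pos j) this
            · rintro (rfl | rfl | ⟨hd, h2⟩)
              · refine ⟨hmem', Or.inr ?_⟩
                rw [hc', Nat.mul_div_cancel _ hcpos]
              · exact ⟨hmem, Or.inl le_rfl⟩
              · exact ⟨hd, h2.imp (fun h => by omega) (fun h => by omega)⟩
          have e1 : n / c' = j + 1 := by rw [hc', Nat.mul_div_cancel _ hcpos]
          rw [this, Finset.sum_insert, Finset.sum_insert]
          · ring
          · intro hcon
            have := (Finset.mem_filter.1 hcon).2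
            rw [hnc] at this
            omega
          · rw [Finset.mem_insert, Finset.mem_filter, e1]
            rintro (h | ⟨_, h⟩) <;> omega
        · rw [if_neg h3, ih]
          have hlt : c' < j + 1 := by
            have h4 : n < (j + 1) * (j + 1) := by omega
            rw [hc'] at h4
            exact Nat.lt_of_mul_lt_mul_left h4
          refine Finset.sum_congr ?_ fun _ _ => rfl
          ext d
          rw [Finset.mem_filter, Finset.mem_filter]
          constructor
          · rintro ⟨hd, h2⟩
            exact ⟨hd, h2.imp (fun h => by omega) (fun h => by omega)⟩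
          · rintro ⟨hd, h2⟩
            refine ⟨hd, ?_⟩
            obtain ⟨f, hd0, hf0, hf, hdf⟩ := hdiv d hd
            rw [hdf] at h2 ⊢
            by_contra hh
            push Not at hh
            rcases h2 with h2 | h2
            · have : d = j + 1 := by omega
              subst this
              have : (j + 1) * f = (j + 1) * c' := by rw [← hf, hc']
              have := Nat.eq_of_mul_eq_mul_left (Nat.succ_pos j) this
              omega
            · have : f = j + 1 := by omega
              subst this
              have : (j + 1) * d = (j + 1) * c' := by rw [mul_comm, ← hf, hc']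
              have := Nat.eq_of_mul_eq_mul_left (Nat.succ_pos j) this
              omega
    · rw [if_neg h, ih]
      refine Finset.sum_congr ?_ fun _ _ => rfl
      ext d
      rw [Finset.mem_filter, Finset.mem_filter]
      constructor
      · rintro ⟨hd, h2⟩
        exact ⟨hd, h2.imp (fun h => by omega) (fun h => by omega)⟩
      · rintro ⟨hd, h2⟩
        refine ⟨hd, ?_⟩
        obtain ⟨f, hd0, hf0, hf, hdf⟩ := hdiv d hd
        rw [hdf] at h2 ⊢
        by_contra hh
        push Not at hh
        apply h
        rcases h2 with h2 | h2
        · have : d = j + 1 := by omega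
          subst this
          rw [hf, Nat.mul_mod_right]
        · have : f = j + 1 := by omega
          subst this
          rw [hf, Nat.mul_mod_left]

theorem sg_sigma (e n s : ℕ) (hn : 0 < n) (hs : n < (s + 1) ^ 2) : sg e n s = sigma e n := by
  rw [sg_eq e n hn, sigma_apply]
  congr 1
  apply Finset.filter_true_of_mem
  intro d hd
  rw [Nat.mem_divisors] at hd
  obtain ⟨e', he⟩ := hd.1
  have h3 : 0 < d := Nat.pos_of_dvd_of_pos hd.1 hn
  by_contra hcon
  push Not at hcon
  obtain ⟨h1, h2⟩ := hcon
  rw [he, Nat.mul_div_cancel_left _ h3] at h2
  have : (s + 1) * (s + 1) ≤ d * e' := Nat.mul_le_mul h1 h2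
  rw [he] at hs
  nlinarith

end Pool.Agent.Q17.ASD
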