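import Mathlib.RingTheory.PowerSeries.Inverse
import Pool.Agent.Q17.ASD.Kron
import Pool.Agent.Q17.ASD.Sig
import Pool.Agent.Q17.ASD.Check

/-! The series `E_4`, `E_6` modulo `5 ^ 15` and the quotient. -/

namespace Pool.Agent.Q17.ASD

open PowerSeries
open ArithmeticFunction (sigma)

/-- `E_4` over `ℤ`. -/
noncomputable def E4Z : PowerSeries ℤ := PowerSeries.mk fun n => if n = 0 then 1 else 240 * (sigma 3 n : ℤ)

/-- `E_6` over `ℤ`. -/
noncomputable def E6Z : PowerSeries ℤ := PowerSeries.mk fun n => if n = 0 then 1 else -504 * (sigma 5 n : ℤ)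

/-- numerator -/
noncomputable def numZ : PowerSeries ℤ := 37 * (E6Z * (E4Z ^ 3 - E6Z ^ 2))

/-- denominator -/
noncomputable def denZ : PowerSeries ℤ := 1728 * (64 * E6Z ^ 2 - 27 * E4Z ^ 3)

/-- reduction -/
abbrev rd : ℤ →+* ZMod M := Int.castRingHom (ZMod M)

theorem cf_lt (c e n : ℕ) : cf c e n < M := by
  unfold cf
  split_ifs
  · norm_num
  · norm_num
  · exact Nat.mod_lt _ (by norm_num)

theorem natCast_M : ((M : ℕ) : ZMod M) = 0 := ZMod.natCast_self M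

theorem e4_spec : Sm 12 e4 ∧ EqT 3126 (ser e4) (E4Z.map rd) := by
  obtain ⟨h1, h2⟩ := sm_bld (cf_lt 240 3) k_e4
  refine ⟨h1, fun i hi => ?_⟩
  rw [coeff_ser, h2 i (by omega), coeff_map, E4Z, coeff_mk]
  unfold cf
  split_ifs with h3 h4
  · simp
  · omega
  · rw [ZMod.natCast_mod, sg_sigma 3 i 56 (Nat.pos_of_ne_zero h3) (by norm_num; omega)]
    simp

theorem e6_spec : Sm 12 e6 ∧ EqT 3126 (ser e6) (E6Z.map rd) := by
  obtain ⟨h1, h2⟩ := sm_bld (cf_lt (M - 504) 5) k_e6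
  refine ⟨h1, fun i hi => ?_⟩
  rw [coeff_ser, h2 i (by omega), coeff_map, E6Z, coeff_mk]
  unfold cf
  split_ifs with h3 h4
  · simp
  · omega
  · rw [ZMod.natCast_mod, sg_sigma 5 i 56 (Nat.pos_of_ne_zero h3) (by norm_num; omega)]
    rw [Nat.cast_mul, Nat.cast_sub (by norm_num), natCast_M]
    simp

theorem hK : 2 ^ 12 * (M * M) < B := by norm_num
theorem hT : 3126 ≤ 2 ^ 12 := by norm_num

theorem castM1 : (((M - 1 : ℕ)) : ZMod M) = -1 := by
  rw [Nat.cast_sub (by norm_num), natCast_M]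
  simp

theorem a3_spec : Sm 12 a3 ∧ EqT 3126 (ser a3) ((E4Z ^ 3).map rd) := by
  obtain ⟨h1, h2⟩ := e4_spec
  obtain ⟨h3, h4⟩ := step_mul hK hT h1 h1 k_a2
  obtain ⟨h5, h6⟩ := step_mul hK hT h3 h1 k_a3
  refine ⟨h5, h6.trans (((h4.trans (h2.mul h2)).mul h2).trans (EqT.of_eq ?_))⟩
  rw [← map_mul, ← map_mul]
  congr 1
  ring

theorem c2_spec : Sm 12 c2 ∧ EqT 3126 (ser c2) ((E6Z ^ 2).map rd) := by
  obtain ⟨h1, h2⟩ := e6_spec
  obtain ⟨h3, h4⟩ := step_mul hK hT h1 h1 k_c2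
  refine ⟨h3, h4.trans ((h2.mul h2).trans (EqT.of_eq ?_))⟩
  rw [← map_mul]
  congr 1
  ring

theorem n1_spec : Sm 12 n1 ∧ EqT 3126 (ser n1) (numZ.map rd) := by
  obtain ⟨a1, a2⟩ := a3_spec
  obtain ⟨c1, c2⟩ := c2_spec
  obtain ⟨e1, e2⟩ := e6_spec
  obtain ⟨d1, d2⟩ := step_lin 1 (M - 1) hT a1 c1 (by norm_num) k_d0
  obtain ⟨m1, m2⟩ := step_mul hK hT e1 d1 k_n0
  obtain ⟨n1, n2⟩ := step_lin 37 0 hT m1 m1 (by norm_num) k_n1
  refine ⟨n1, n2.trans ?_⟩
  have d3 := d2.trans (((EqT.refl _).mul a2).add ((EqT.refl _).mul c2))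
  have m3 := m2.trans (e2.mul d3)
  refine (((EqT.refl _).mul m3).add ((EqT.refl _).mul m3)).trans (EqT.of_eq ?_)
  rw [castM1]
  simp only [numZ, map_mul, map_sub, map_pow, Nat.cast_one, map_one, map_neg, Nat.cast_zero, _root_.map_zero,
    Nat.cast_ofNat, map_ofNat]
  ring

theorem h0_spec : Sm 12 h0 ∧ EqT 3126 (ser h0) (denZ.map rd) := by
  obtain ⟨a1, a2⟩ := a3_spec
  obtain ⟨c1, c2⟩ := c2_spec
  obtain ⟨d1, d2⟩ := step_lin 64 (27 * (M - 1)) hT c1 a1 (by norm_num) k_g0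
  obtain ⟨n1, n2⟩ := step_lin 1728 0 hT d1 d1 (by norm_num) k_h0
  refine ⟨n1, n2.trans ?_⟩
  have d3 := d2.trans (((EqT.refl _).mul c2).add ((EqT.refl _).mul a2))
  refine (((EqT.refl _).mul d3).add ((EqT.refl _).mul d3)).trans (EqT.of_eq ?_)
  rw [Nat.cast_mul, castM1]
  simp only [denZ, map_mul, map_sub, map_pow, Nat.cast_one, map_one, map_neg, Nat.cast_zero, _root_.map_zero,
    Nat.cast_ofNat, map_ofNat]
  ring

/-- The coefficients of a quotient of `numZ` by `denZ` modulo `5 ^ 15`. -/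
theorem coeff_quot (f : PowerSeries (ZMod M)) (hf : f * denZ.map rd = numZ.map rd) (i : ℕ) (hi : i < 3126) :
    coeff i f = ((f0 / B ^ i % B : ℕ) : ZMod M) := by
  obtain ⟨h1, h2⟩ := h0_spec
  obtain ⟨n1, n2⟩ := n1_spec
  obtain ⟨m1, m2⟩ := step_mul hK hT (sm_chk k_f0) h1 k_fh
  have key : EqT 3126 (ser f0 * denZ.map rd) (f * denZ.map rd) := by
    rw [hf]
    exact ((EqT.refl _).mul h2.symm).trans (m2.symm.trans n2)
  -- the constant coefficient is a unit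
  have hc : constantCoeff (denZ.map rd) = ((1728 * 37 : ℕ) : ZMod M) := by
    rw [← coeff_zero_eq_constantCoeff_apply, coeff_map, coeff_zero_eq_constantCoeff_apply, denZ]
    simp only [map_mul, map_sub, map_pow, map_ofNat]
    have e4 : constantCoeff E4Z = 1 := by
      rw [← coeff_zero_eq_constantCoeff_apply, E4Z, coeff_mk, if_pos rfl]
    have e6 : constantCoeff E6Z = 1 := by
      rw [← coeff_zero_eq_constantCoeff_apply, E6Z, coeff_mk, if_pos rfl]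
    rw [e4, e6]
    norm_num
  have hu : IsUnit (denZ.map rd) := by
    rw [isUnit_iff_constantCoeff, hc]
    exact (ZMod.isUnit_iff_coprime _ _).2 (by norm_num)
  obtain ⟨u, hu⟩ := hu
  have h3 := key.mul (EqT.refl (↑u⁻¹ : PowerSeries (ZMod M)))
  rw [← hu, mul_assoc, mul_assoc, Units.mul_inv, mul_one, mul_one] at h3
  rw [← h3 i hi, coeff_ser]
  rfl

end Pool.Agent.Q17.ASD
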